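import Pool.Agent.Y46.MT.Kw

/-!
# Relations between constants, logarithms and the values of the hypergeometric functions at `k` points of a window:
coefficients in number fields of bounded degree
-/

set_option autoImplicit false
set_option maxHeartbeats 400000

open Matrix PowerSeries Pool.Agent.Y113 Pool.Agent.Y120.GF Pool.Agent.Y120.GH Pool.Agent.Y119.HY Pool.Agent.Y119.HZ
  Pool.Agent.Y118.CM Pool.Agent.Y113.MT Pool.Agent.Y46.MT

namespace Pool.Agent.Helper85K9.HW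

/-- **KW** over number fields of bounded degree -/
theorem kwD (n : ℕ) (Q : Polynomial ℚ) (hQ : QD n Q) (hH : ∀ i j, Pool.Agent.Y113.SDc (Hp n Q i j)) :
    ∃ G0 : ℕ, ∀ G : ℕ, G0 ≤ G →
    ∀ (p : ℕ) (Ω : Fin p → ℂ) (q k D d : ℕ), ∃ E : ℕ, ∀ H t : ℕ, (H + 2) ^ E ≤ t → (∀ u ≤ H, G * u + 2 ≤ t) ∧
    ∀ w : Fin q → ℂ, ∃ S : Finset ℕ,
      (S.card : Cardinal) ≤ Algebra.trdeg ℚ (IntermediateField.adjoin ℚ (Set.range Ω)) + q + 1 ∧
    ∀ u : Fin k → ℕ, Function.Injective u → (∀ j, 1 ≤ u j ∧ u j ≤ H ∧ u j ∉ S) →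
    ∀ K : IntermediateField ℚ ℂ, FiniteDimensional ℚ K → Module.finrank ℚ K ≤ D →
    ∀ P : MvPolynomial ((Fin p ⊕ Fin q) ⊕ Fin k × Option (Fin n × Fin n)) K, P.totalDegree ≤ d →
    MvPolynomial.aeval (Sum.elim (Sum.elim Ω w) fun a : Fin k × Option (Fin n × Fin n) =>
      a.2.elim (((Real.log ((t - G * u a.1 : ℕ) : ℝ) : ℝ)) : ℂ)
        fun x => Hf (Hc n Q) (((1 / ((t - G * u a.1 : ℕ) : ℝ) : ℝ)) : ℂ) x.1 x.2) P = 0 →
    ∀ g : Fin k → Matrix (Fin n) (Fin n) ℂ, (∀ j, (g j).transpose * cm (Jm n Q) * g j = cm (Jm n Q)) → ∀ μ : Fin k → ℂ,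
    MvPolynomial.aeval (Sum.elim (Sum.elim Ω w) fun a : Fin k × Option (Fin n × Fin n) =>
      a.2.elim (μ a.1) fun x => g a.1 x.1 x.2) P = 0 := by
  classical
  obtain ⟨D', b, hD, hb⟩ := exists_b n Q
  obtain ⟨q0, C, hG⟩ := gsys_Hp hQ hH hb
  have hG' := hG.reindex (ix n)
  have hT : Polynomial.X * T1 D' ≠ 0 := by
    refine mul_ne_zero Polynomial.X_ne_zero (mul_ne_zero (Polynomial.C_ne_zero.2 (by exact_mod_cast hD)) ?_)
    intro h0
    have := congrArg (Polynomial.eval 0) h0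
    simp at this
  have hode : ∀ i : Fin (n * n), ps (Polynomial.X * T1 D') * d⁄dX ℚ (hf n Q i) =
      ∑ j, ps (A2 n D' b (ix n i) (ix n j)) * hf n Q j := by
    intro i
    have h1 := ode_A2 hQ hb (ix n i)
    have h2 : ∑ j : Fin (n * n), ps (A2 n D' b (ix n i) (ix n j)) * hf n Q j =
        ∑ q, ps (A2 n D' b (ix n i) q) * Hp n Q q.1 q.2 :=
      Equiv.sum_comp (ix n) fun q => ps (A2 n D' b (ix n i) q) * Hp n Q q.1 q.2
    exact h1.trans h2.symm
  obtain ⟨G0, hwin⟩ := Pool.Agent.Y118.UL.winG (h := hf n Q) (A := fun a c => A2 n D' b (ix n a) (ix n c)) hT hode hG'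
    (qu_hf hQ hH hb)
  refine ⟨G0, fun G hGG p Ω q k D d => ?_⟩
  obtain ⟨Ex, hE⟩ := hwin G hGG p Ω q k D d
  refine ⟨Ex + 1, fun H t ht => ?_⟩
  have hpos : 1 ≤ (H + 2) ^ Ex := Nat.one_le_pow _ _ (by omega)
  have ht' : (H + 2) ^ Ex + 1 ≤ t := by
    have h1 : (H + 2) ^ (Ex + 1) = (H + 2) ^ Ex * (H + 2) := pow_succ _ _
    nlinarith
  obtain ⟨hlt, -⟩ := hE H (t - 1) (by omega)
  have hlt2 : ∀ u ≤ H, G * u + 2 ≤ t := by
    intro u hu
    have := hlt u hu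
    omega
  obtain ⟨-, hw⟩ := hE H t (by omega)
  refine ⟨hlt2, fun w => ?_⟩
  obtain ⟨-, S, hS, hmain⟩ := hw w
  refine ⟨S, hS, fun u hu1 hu2 K hKf hKD P hPd hP0 g hg μ => ?_⟩
  have hdet := Jc_det hQ
  have ht1 : ∀ j, 2 ≤ t - G * u j := by
    intro j
    have := hlt2 (u j) (hu2 j).2.1
    omega
  have ht2 : ∀ j, (2 : ℝ) ≤ ((t - G * u j : ℕ) : ℝ) := fun j => by exact_mod_cast ht1 j
  have hform : ∀ j, (Hf (Hc n Q) (((1 / ((t - G * u j : ℕ) : ℝ) : ℝ)) : ℂ)).transpose * cm (Jm n Q) *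
      Hf (Hc n Q) (((1 / ((t - G * u j : ℕ) : ℝ) : ℝ)) : ℂ) = cm (Jm n Q) := fun j => Hf_form' hQ (ht1 j)
  choose W hW1 hW2 hW3 using fun j => isom_inv hdet (hform j)
  have hval : (fun a : Fin k × Fin (n * n) => ((ev ((t - G * u a.1 : ℕ) : ℝ) (hf n Q a.2) : ℝ) : ℂ)) =
      fun a => Hf (Hc n Q) (((1 / ((t - G * u a.1 : ℕ) : ℝ) : ℝ)) : ℂ) (ix n a.2).1 (ix n a.2).2 := by
    funext a
    exact ev_Hp _ _ _
  have hm := hmain u hu1 hu2 (Spk k (cm (Jm n Q)) (ix n)) (spk_irr k (Jc_skew hQ) hdet (ix n)) (by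
      rintro y ⟨g', hg', rfl⟩ j R hR
      show MvPolynomial.eval₂ ((algebraMap ℚ ℂ).comp (Polynomial.evalRingHom (1 / ((t - G * u j : ℕ) : ℚ))))
        (fun i => g' j (ix n i).1 (ix n i).2) R = 0
      have h3 := rel_inv hQ (R := R) hR (x := 1 / ((t - G * u j : ℕ) : ℝ))
        (by
          have := ht2 j
          positivity) (by
          have := ht2 j
          rw [div_lt_one (by linarith)]
          linarith)
        (isom_mul (hW3 j) (hg' j))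
      rw [← Matrix.mul_assoc, hW1, one_mul, ← spec_eq] at h3
      exact h3) (by
      rw [hval]
      exact ⟨_, hform, rfl⟩) K hKf hKD
    (MvPolynomial.rename (Sum.map id fun a : Fin k × Option (Fin n × Fin n) => (a.1, a.2.map (ix n).symm)) P)
    ((MvPolynomial.totalDegree_rename_le _ _).trans hPd) (by
      rw [MvPolynomial.aeval_rename, ← hP0, hval]
      refine congrArg (fun z => MvPolynomial.aeval z P) (funext fun x => ?_)
      rcases x with x | ⟨j, _ | x⟩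
      · rfl
      · rfl
      · show Hf (Hc n Q) (((1 / ((t - G * u j : ℕ) : ℝ) : ℝ)) : ℂ) (ix n ((ix n).symm x)).1 (ix n ((ix n).symm x)).2 = _
        rw [Equiv.apply_symm_apply]
        rfl) (fun a => g a.1 (ix n a.2).1 (ix n a.2).2) ⟨g, hg, rfl⟩ μ
  rw [MvPolynomial.aeval_rename] at hm
  rw [← hm]
  refine congrArg (fun z => MvPolynomial.aeval z P) (funext fun x => ?_)
  rcases x with x | ⟨j, _ | x⟩
  · rfl
  · rfl
  · show _ = g j (ix n ((ix n).symm x)).1 (ix n ((ix n).symm x)).2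
    rw [Equiv.apply_symm_apply]
    rfl

end Pool.Agent.Helper85K9.HW
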