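import Pool.Agent.Helper85K9.HW.Sub
import Pool.Agent.Y890.HE.Full

/-!
# From the multiplier `2 π i` to all multipliers
-/

set_option autoImplicit false
set_option maxHeartbeats 400000

open Matrix Pool.Agent.Y119.HY Pool.Agent.Y119.HZ Pool.Agent.Y118.HP

namespace Pool.Agent.Helper85K9.HW

variable {k n : ℕ}

/-- `2 π i` -/
noncomputable def tpi : ℂ := 2 * Real.pi * Complex.I

theorem tpi_ne : tpi ≠ 0 := Complex.two_pi_I_ne_zero

/-- square roots of `2 π i` are transcendental over number fields -/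
theorem root_tr (K : IntermediateField ℚ ℂ) [FiniteDimensional ℚ K] (s : ℂ) (hs : s ^ 2 = tpi) (p : Polynomial K)
    (h : Polynomial.aeval s p = 0) : p = 0 := by
  by_contra hp
  have h1 : IsAlgebraic K s := ⟨p, hp, h⟩
  have : Algebra.IsAlgebraic ℚ K := inferInstance
  have h2 : IsAlgebraic ℚ s := IsAlgebraic.restrictScalars ℚ h1
  have h3 : IsAlgebraic ℚ ((s ^ 2) ^ 2) := (h2.pow 2).pow 2
  have h4 : (s ^ 2) ^ 2 = algebraMap ℚ ℂ (-4) * (Real.pi : ℂ) ^ 2 := by
    rw [hs]
    unfold tpi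
    rw [mul_pow, mul_pow, Complex.I_sq]
    norm_num
  have h5 : (Real.pi : ℂ) ^ 2 = algebraMap ℚ ℂ (-4)⁻¹ * (s ^ 2) ^ 2 := by
    rw [h4, ← mul_assoc, ← map_mul]
    norm_num
  have h6 : IsAlgebraic ℚ ((Real.pi : ℂ) ^ 2) := by
    rw [h5]
    exact (isAlgebraic_algebraMap _).mul h3
  exact Pool.Agent.H340R2.LW.transcendental_pi_complex (h6.of_pow two_pos)

/-- the standard form for a non-degenerate alternating matrix over `ℚ` -/
theorem std (hn : Even n) (J : Matrix (Fin n) (Fin n) ℚ) (hJ : J.transpose = -J) (hd : J.det ≠ 0) :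
    ∃ U : Matrix (Fin n) (Fin n) ℚ, U.det ≠ 0 ∧ cm U * cm J * (cm U).transpose = jm ℂ n := by
  have h0 : ∀ i, J i i = 0 := by
    intro i
    have h1 := congrFun (congrFun hJ i) i
    rw [Matrix.transpose_apply, Matrix.neg_apply] at h1
    linarith
  obtain ⟨U, hU, hUJ⟩ := Pool.Agent.Y122.HPDar.darboux J (jm ℚ n) hJ h0 hd jm_transpose (fun i => jm_diag i) (by
    have h1 := jm_det (K := ℂ) hn
    intro h0
    apply h1
    rw [← jm_map (algebraMap ℚ ℂ)]
    have h3 : ((jm ℚ n).map (algebraMap ℚ ℂ)).det = algebraMap ℚ ℂ (jm ℚ n).det := (RingHom.map_det _ _).symm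
    rw [h3, h0, map_zero])
  refine ⟨U, hU, ?_⟩
  rw [← cm_transpose, ← cm_mul, ← cm_mul, hUJ]
  exact jm_map (algebraMap ℚ ℂ)

/-- **from the multiplier `2 π i` to all multipliers** -/
theorem lam_ext (hn : Even n) (J B : Matrix (Fin n) (Fin n) ℚ) (hJ : J.transpose = -J) (hJd : J.det ≠ 0)
    (hB : B.transpose = -B) (hBd : B.det ≠ 0) (w : ℕ) (K : IntermediateField ℚ ℂ) [FiniteDimensional ℚ K]
    (P : MvPolynomial (Co k n) K)
    (h : ∀ (μ : Fin k → ℂ) (X : Fin k → Matrix (Fin n) (Fin n) ℂ),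
      (∀ j, X j * cm J * (X j).transpose = tpi ^ w • cm B) → MvPolynomial.aeval (pnt tpi μ X) P = 0)
    (lam : ℂ) (hlam : lam ≠ 0) (μ : Fin k → ℂ) (X : Fin k → Matrix (Fin n) (Fin n) ℂ)
    (hX : ∀ j, X j * cm J * (X j).transpose = lam ^ w • cm B) : MvPolynomial.aeval (pnt lam μ X) P = 0 := by
  classical
  obtain ⟨U, hU, hUJ⟩ := std hn J hJ hJd
  obtain ⟨V, hV, hVB⟩ := std hn B hB hBd
  have hVu : IsUnit V.det := isUnit_iff_ne_zero.2 hV
  have hVi : cm V⁻¹ * cm V = 1 := by rw [← cm_mul, Matrix.nonsing_inv_mul _ hVu, cm_one]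
  have hVi' : cm V * cm V⁻¹ = 1 := by rw [← cm_mul, Matrix.mul_nonsing_inv _ hVu, cm_one]
  obtain ⟨z, hz⟩ := IsAlgClosed.exists_pow_nat_eq lam (n := 2) two_pos
  obtain ⟨z0, hz0⟩ := IsAlgClosed.exists_pow_nat_eq tpi (n := 2) two_pos
  -- the parametrisation
  have hzU : ∀ z : ℂ, (z ^ w • cm U) * cm J * (z ^ w • cm U).transpose = ((z ^ 2) ^ w) • jm ℂ n := by
    intro z
    rw [Matrix.transpose_smul, Matrix.smul_mul, Matrix.mul_smul, Matrix.smul_mul, smul_smul, hUJ]
    congr 1
    ring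
  have hpar : ∀ (z : ℂ) (g : Matrix (Fin n) (Fin n) ℂ), g ∈ SpS ℂ n →
      (cm V⁻¹ * (g * (z ^ w • cm U))) * cm J * (cm V⁻¹ * (g * (z ^ w • cm U))).transpose = ((z ^ 2) ^ w) • cm B := by
    intro z g hg
    have hg' : g * jm ℂ n * g.transpose = jm ℂ n := hg
    have e1 : (cm V⁻¹ * (g * (z ^ w • cm U))) * cm J * (cm V⁻¹ * (g * (z ^ w • cm U))).transpose =
        cm V⁻¹ * (g * ((z ^ w • cm U) * cm J * (z ^ w • cm U).transpose) * g.transpose) * (cm V⁻¹).transpose := by
      rw [Matrix.transpose_mul, Matrix.transpose_mul]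
      simp only [Matrix.mul_assoc]
    rw [e1, hzU, Matrix.mul_smul, Matrix.smul_mul, hg', ← hVB, Matrix.mul_smul, Matrix.smul_mul]
    congr 1
    have e2 : (cm V).transpose * (cm V⁻¹).transpose = 1 := by
      rw [← Matrix.transpose_mul, hVi, Matrix.transpose_one]
    calc cm V⁻¹ * (cm V * cm B * (cm V).transpose) * (cm V⁻¹).transpose
        = (cm V⁻¹ * cm V) * cm B * ((cm V).transpose * (cm V⁻¹).transpose) := by simp only [Matrix.mul_assoc]
      _ = cm B := by rw [hVi, e2, Matrix.one_mul, Matrix.mul_one]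
  -- rational points
  have hrat : ∀ (ν : Fin k → ℚ) (g : Fin k → Matrix (Fin n) (Fin n) ℚ), (∀ j, g j ∈ SpS ℚ n) →
      MvPolynomial.aeval (pnt lam (fun j => ((ν j : ℚ) : ℂ)) fun j => cm V⁻¹ * (cm (g j) * (z ^ w • cm U))) P = 0 := by
    intro ν g hg
    set W : Fin k → Matrix (Fin n) (Fin n) ℚ := fun j => V⁻¹ * (g j * U) with hW
    set r : Polynomial K := MvPolynomial.aeval (fun o : Co k n => o.elim ((Polynomial.X : Polynomial K) ^ 2)
      fun a => a.2.elim (Polynomial.C (algebraMap ℚ K (ν a.1))) fun x =>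
        Polynomial.X ^ w * Polynomial.C (algebraMap ℚ K (W a.1 x.1 x.2))) P with hr
    have hre : ∀ s : ℂ, Polynomial.aeval s r =
        MvPolynomial.aeval (pnt (s ^ 2) (fun j => ((ν j : ℚ) : ℂ)) fun j => cm V⁻¹ * (cm (g j) * (s ^ w • cm U))) P := by
      intro s
      have h1 := MvPolynomial.algHom_ext (R := K)
        (f := (Polynomial.aeval (R := K) s).comp (MvPolynomial.aeval (fun o : Co k n =>
          o.elim ((Polynomial.X : Polynomial K) ^ 2)
          fun a => a.2.elim (Polynomial.C (algebraMap ℚ K (ν a.1))) fun x =>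
            Polynomial.X ^ w * Polynomial.C (algebraMap ℚ K (W a.1 x.1 x.2)))))
        (g := MvPolynomial.aeval (R := K)
          (pnt (s ^ 2) (fun j => ((ν j : ℚ) : ℂ)) fun j => cm V⁻¹ * (cm (g j) * (s ^ w • cm U)))) (fun o => by
        rw [AlgHom.comp_apply, MvPolynomial.aeval_X, MvPolynomial.aeval_X]
        rcases o with _ | ⟨j, _ | x⟩
        · show Polynomial.aeval s (Polynomial.X ^ 2 : Polynomial K) = s ^ 2
          rw [map_pow, Polynomial.aeval_X]
        · show Polynomial.aeval s (Polynomial.C (algebraMap ℚ K (ν j))) = ((ν j : ℚ) : ℂ)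
          rw [Polynomial.aeval_C, ← IsScalarTower.algebraMap_apply ℚ K ℂ]
          rfl
        · show Polynomial.aeval s (Polynomial.X ^ w * Polynomial.C (algebraMap ℚ K (W j x.1 x.2))) =
            (cm V⁻¹ * (cm (g j) * (s ^ w • cm U))) x.1 x.2
          rw [map_mul, map_pow, Polynomial.aeval_X, Polynomial.aeval_C, ← IsScalarTower.algebraMap_apply ℚ K ℂ,
            Matrix.mul_smul, Matrix.mul_smul, Matrix.smul_apply, smul_eq_mul, ← cm_mul, ← cm_mul]
          rfl)
      exact DFunLike.congr_fun h1 P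
    have hr0 : r = 0 := by
      refine root_tr K z0 hz0 r ?_
      rw [hre, hz0]
      refine h _ _ fun j => ?_
      have h2 := hpar z0 (cm (g j)) (SpS_map (algebraMap ℚ ℂ) (hg j))
      rw [hz0] at h2
      exact h2
    have h3 := hre z
    rw [hr0, map_zero, hz] at h3
    exact h3.symm
  -- complex logarithms
  have hlog : ∀ (ν : Fin k → ℂ) (g : Fin k → Matrix (Fin n) (Fin n) ℚ), (∀ j, g j ∈ SpS ℚ n) →
      MvPolynomial.aeval (pnt lam ν fun j => cm V⁻¹ * (cm (g j) * (z ^ w • cm U))) P = 0 := by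
    intro ν g hg
    set r : MvPolynomial (Fin k) ℂ := MvPolynomial.aeval (fun o : Co k n => o.elim (MvPolynomial.C lam)
      fun a => a.2.elim (MvPolynomial.X a.1) fun x =>
        MvPolynomial.C ((cm V⁻¹ * (cm (g a.1) * (z ^ w • cm U))) x.1 x.2)) P with hr
    have hre : ∀ ν : Fin k → ℂ, MvPolynomial.aeval ν r =
        MvPolynomial.aeval (pnt lam ν fun j => cm V⁻¹ * (cm (g j) * (z ^ w • cm U))) P := by
      intro ν
      have h1 := MvPolynomial.algHom_ext (R := K)
        (f := ((MvPolynomial.aeval (R := ℂ) ν).restrictScalars K).comp (MvPolynomial.aeval (fun o : Co k n =>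
          o.elim (MvPolynomial.C lam)
          fun a => a.2.elim (MvPolynomial.X a.1) fun x =>
            MvPolynomial.C ((cm V⁻¹ * (cm (g a.1) * (z ^ w • cm U))) x.1 x.2))))
        (g := MvPolynomial.aeval (R := K) (pnt lam ν fun j => cm V⁻¹ * (cm (g j) * (z ^ w • cm U)))) (fun o => by
        rw [AlgHom.comp_apply, MvPolynomial.aeval_X, MvPolynomial.aeval_X]
        rcases o with _ | ⟨j, _ | x⟩
        · show MvPolynomial.aeval ν (MvPolynomial.C lam) = lam
          rw [MvPolynomial.aeval_C]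
          rfl
        · show MvPolynomial.aeval ν (MvPolynomial.X j) = ν j
          rw [MvPolynomial.aeval_X]
        · show MvPolynomial.aeval ν (MvPolynomial.C _) = _
          rw [MvPolynomial.aeval_C]
          rfl)
      exact DFunLike.congr_fun h1 P
    rw [← hre]
    have hr0 : r = 0 := by
      refine MvPolynomial.funext_set (fun _ => Set.range fun c : ℚ => (c : ℂ)) (fun _ => Set.infinite_range_of_injective
        (Rat.cast_injective)) fun x hx => ?_
      choose c hc using fun i => hx i (Set.mem_univ i)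
      have hx' : x = fun j => ((c j : ℚ) : ℂ) := funext fun j => (hc j).symm
      rw [map_zero, hx', ← MvPolynomial.aeval_eq_eval]
      exact (hre _).trans (hrat c g hg)
    rw [hr0, map_zero]
  -- complex symplectic matrices
  set T : MvPolynomial (Σ _ : Fin k, Fin n × Fin n) ℂ := MvPolynomial.aeval (fun o : Co k n => o.elim (MvPolynomial.C lam)
      fun a => a.2.elim (MvPolynomial.C (μ a.1)) fun x =>
        ∑ c, ∑ d, MvPolynomial.C (cm V⁻¹ x.1 c * (z ^ w • cm U) d x.2) *
          MvPolynomial.X (⟨a.1, (c, d)⟩ : Σ _ : Fin k, Fin n × Fin n)) P with hT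
  have hTe : ∀ g : Fin k → Matrix (Fin n) (Fin n) ℂ, MvPolynomial.eval (fun q => (g q.1) q.2.1 q.2.2) T =
      MvPolynomial.aeval (pnt lam μ fun j => cm V⁻¹ * (g j * (z ^ w • cm U))) P := by
    intro g
    rw [← MvPolynomial.aeval_eq_eval]
    have h1 := MvPolynomial.algHom_ext (R := K)
      (f := ((MvPolynomial.aeval (R := ℂ) (fun q : (Σ _ : Fin k, Fin n × Fin n) =>
        (g q.1) q.2.1 q.2.2)).restrictScalars K).comp
        (MvPolynomial.aeval (fun o : Co k n => o.elim (MvPolynomial.C lam)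
          fun a => a.2.elim (MvPolynomial.C (μ a.1)) fun x =>
          ∑ c, ∑ d, MvPolynomial.C (cm V⁻¹ x.1 c * (z ^ w • cm U) d x.2) *
            MvPolynomial.X (⟨a.1, (c, d)⟩ : Σ _ : Fin k, Fin n × Fin n))))
      (g := MvPolynomial.aeval (R := K) (pnt lam μ fun j => cm V⁻¹ * (g j * (z ^ w • cm U)))) (fun o => by
      rw [AlgHom.comp_apply, MvPolynomial.aeval_X, MvPolynomial.aeval_X]
      rcases o with _ | ⟨j, _ | x⟩
      · show MvPolynomial.aeval _ (MvPolynomial.C lam) = lam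
        rw [MvPolynomial.aeval_C]
        rfl
      · show MvPolynomial.aeval _ (MvPolynomial.C (μ j)) = μ j
        rw [MvPolynomial.aeval_C]
        rfl
      · show MvPolynomial.aeval (R := ℂ) _ (∑ c, ∑ d, MvPolynomial.C (cm V⁻¹ x.1 c * (z ^ w • cm U) d x.2) *
            MvPolynomial.X (⟨j, (c, d)⟩ : Σ _ : Fin k, Fin n × Fin n)) = (cm V⁻¹ * (g j * (z ^ w • cm U))) x.1 x.2
        simp only [map_sum, map_mul, MvPolynomial.aeval_X, MvPolynomial.aeval_C, Matrix.mul_apply, Finset.mul_sum]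
        refine Finset.sum_congr rfl fun c _ => Finset.sum_congr rfl fun d _ => ?_
        show cm V⁻¹ x.1 c * (z ^ w • cm U) d x.2 * g j c d = _
        ring)
    exact DFunLike.congr_fun h1 P
  have key := Pool.Agent.Y890.HE.dense_prod (n := fun _ : Fin k => n) (fun _ => hn) T (fun g hg => by
    refine (hTe fun j => (g j).map (algebraMap ℚ ℂ)).trans ?_
    exact hlog μ g hg)
  -- the point
  have hVX : ∀ j, (cm V * X j) * cm J * (cm V * X j).transpose = lam ^ w • jm ℂ n := by
    intro j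
    rw [← hVB, Matrix.transpose_mul]
    calc cm V * X j * cm J * ((X j).transpose * (cm V).transpose)
        = cm V * (X j * cm J * (X j).transpose) * (cm V).transpose := by simp only [Matrix.mul_assoc]
      _ = _ := by rw [hX, Matrix.mul_smul, Matrix.smul_mul]
  have h1 := fun j => Pool.Agent.Y890.HE.tor_sp' hn (pow_ne_zero w hlam) (hVX j) (by
    have := hzU z
    rwa [hz] at this)
  have h2 := (hTe fun j => cm V * X j * (z ^ w • cm U)⁻¹).symm.trans
    (key (fun j => cm V * X j * (z ^ w • cm U)⁻¹) fun j => (h1 j).1)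
  have h3 : (fun j => cm V⁻¹ * (cm V * X j * (z ^ w • cm U)⁻¹ * (z ^ w • cm U))) = X := by
    funext j
    rw [(h1 j).2, ← Matrix.mul_assoc, hVi, Matrix.one_mul]
  rw [h3] at h2
  exact h2

end Pool.Agent.Helper85K9.HW
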