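import Pool.Agent.Helper85K9.HW.Td

/-!
# The windows theorem for the hypergeometric families
-/

set_option autoImplicit false
set_option maxHeartbeats 400000

open Matrix Pool.Agent.Y119.HY Pool.Agent.Y119.HZ Pool.Agent.Y118.CM Pool.Agent.Y113.MT NumberField

namespace Pool.Agent.Helper85K9.HW

/-- abstract number fields and subfields of `ℂ` -/
theorem abs_field {σ : Type*} {K : Type} [Field K] [NumberField K] (φ : K →+* ℂ) {D : ℕ}
    (hK : Module.finrank ℚ K ≤ D) (P : MvPolynomial σ K) :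
    ∃ (K' : IntermediateField ℚ ℂ) (_ : FiniteDimensional ℚ K') (P' : MvPolynomial σ K'),
      Module.finrank ℚ K' ≤ D ∧ P'.totalDegree ≤ P.totalDegree ∧
      ∀ v : σ → ℂ, MvPolynomial.aeval v P' = (P.map φ).eval v := by
  set ψ : K →ₐ[ℚ] ℂ := φ.toRatAlgHom with hψ
  set e : K ≃ₐ[ℚ] ψ.fieldRange := AlgEquiv.ofInjectiveField ψ with he
  refine ⟨ψ.fieldRange, Module.Finite.equiv e.toLinearEquiv, P.map (e : K →+* ψ.fieldRange), ?_,
    Finset.sup_mono (MvPolynomial.support_map_subset _ _), fun v => ?_⟩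
  · rw [← e.toLinearEquiv.finrank_eq]
    exact hK
  · rw [MvPolynomial.aeval_def, MvPolynomial.eval₂_map, MvPolynomial.eval_map]
    congr 1

variable {m : ℕ} {β : Fin m → ℚ}

/-- the entries of the matrix of periods -/
noncomputable def PM (β : Fin m → ℚ) (Ω : Matrix (Fin (2 * m)) (Fin (2 * m)) ℂ) (t : ℕ) :
    Matrix (Fin (2 * m)) (Fin (2 * m)) ℂ := (Yt (2 * m) (QB β) t * Ω).transpose

/-- the points of the torsor -/
def Tor (β : Fin m → ℚ) (B : Matrix (Fin (2 * m)) (Fin (2 * m)) ℚ) (k : ℕ) (lam : ℂ)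
    (X : Fin k → Matrix (Fin (2 * m)) (Fin (2 * m)) ℂ) : Prop :=
  ∀ j, X j * cm (Jm (2 * m) (QB β)) * (X j).transpose = lam ^ (2 * m - 1) • cm B

/-- **the windows theorem** -/
theorem hw_main (hm : 1 ≤ m) (hβ : ∀ j, ∀ a : ℤ, β j ≠ a) :
    ∃ G0 : ℕ, ∀ G : ℕ, G0 ≤ G → ∀ (Ω : Matrix (Fin (2 * m)) (Fin (2 * m)) ℂ)
      (M B : Matrix (Fin (2 * m)) (Fin (2 * m)) ℚ), Ω.det ≠ 0 → Ω * cm M = tpi • (cm (Am (2 * m)) * Ω) →
      Ω.transpose * cm (Jm (2 * m) (QB β)) * Ω = tpi ^ (2 * m - 1) • cm B →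
      ∀ (p : ℕ) (ω : Fin p → ℂ) (q k D d : ℕ), ∃ E : ℕ, ∀ H t : ℕ, (H + 2) ^ E ≤ t →
      (∀ u ≤ H, G * u + 2 ≤ t) ∧ ∀ w : Fin q → ℂ, ∃ S : Finset ℕ,
        (S.card : Cardinal) ≤ Algebra.trdeg ℚ (IntermediateField.adjoin ℚ (Set.range (cst ω tpi Ω))) + q + 1 ∧
        S.card ≤ m + 2 + p + q ∧
        ∀ u : Fin k → ℕ, Function.Injective u → (∀ j, 1 ≤ u j ∧ u j ≤ H ∧ u j ∉ S) →
          Tor β B k tpi (fun j => PM β Ω (t - G * u j)) ∧
          (∀ (K : Type) [Field K] [NumberField K] (φ : K →+* ℂ) (P : MvPolynomial (Co k (2 * m)) K),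
            Module.finrank ℚ K ≤ D → P.totalDegree ≤ d →
            (P.map φ).eval (pnt tpi (fun j => ((Real.log ((t - G * u j : ℕ) : ℝ) : ℝ) : ℂ))
              fun j => PM β Ω (t - G * u j)) = 0 →
            ∀ (lam : ℂ) (μ : Fin k → ℂ) (X : Fin k → Matrix (Fin (2 * m)) (Fin (2 * m)) ℂ), lam ≠ 0 →
              Tor β B k lam X → (P.map φ).eval (pnt lam μ X) = 0) ∧
          (∀ (K : Type) [Field K] [NumberField K] (φ : K →+* ℂ)
            (P : MvPolynomial ((Fin p ⊕ Fin q) ⊕ Co k (2 * m)) K), Module.finrank ℚ K ≤ D → P.totalDegree ≤ d →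
            (P.map φ).eval (Sum.elim (Sum.elim ω w) (pnt tpi (fun j => ((Real.log ((t - G * u j : ℕ) : ℝ) : ℝ) : ℂ))
              fun j => PM β Ω (t - G * u j))) = 0 →
            ∀ (μ : Fin k → ℂ) (X : Fin k → Matrix (Fin (2 * m)) (Fin (2 * m)) ℂ),
              Tor β B k tpi X → (P.map φ).eval (Sum.elim (Sum.elim ω w) (pnt tpi μ X)) = 0) := by
  classical
  have hβ' : ∀ j, ∀ l : ℕ, (l : ℚ) + β j ≠ 0 ∧ (l : ℚ) + -β j ≠ 0 := by
    intro j l
    constructor
    · intro h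
      apply hβ j (-(l : ℤ))
      push_cast
      linear_combination h
    · intro h
      apply hβ j (l : ℤ)
      push_cast
      linear_combination -h
  have hQ : QD (2 * m) (QB β) := QD_QB hm hβ'
  obtain ⟨G0, hG0⟩ := kwD (2 * m) (QB β) hQ (fun a b => sdc_hps hβ' hQ a b)
  refine ⟨G0, fun G hG Ω M B hΩ hM hB p ω q k D d => ?_⟩
  set P' := Fintype.card (Fin p ⊕ Option (Fin (2 * m) × Fin (2 * m))) with hP'
  set e : Fin P' ≃ Fin p ⊕ Option (Fin (2 * m) × Fin (2 * m)) :=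
    (Fintype.equivFin (Fin p ⊕ Option (Fin (2 * m) × Fin (2 * m)))).symm with he
  obtain ⟨Ex, hE⟩ := hG0 G hG P' (fun i => cst ω tpi Ω (e i)) q k D (d * (2 * m + 2))
  refine ⟨Ex, fun H t ht => ?_⟩
  obtain ⟨h1, h2⟩ := hE H t ht
  refine ⟨h1, fun w => ?_⟩
  obtain ⟨S, hS, hS2⟩ := h2 w
  have hrange : Set.range (fun i => cst ω tpi Ω (e i)) = Set.range (cst ω tpi Ω) := by
    ext z
    constructor
    · rintro ⟨i, rfl⟩
      exact ⟨e i, rfl⟩
    · rintro ⟨i, rfl⟩
      exact ⟨e.symm i, by simp only [Equiv.apply_symm_apply]⟩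
  rw [hrange] at hS
  -- nondegeneracy
  have hJd := Jc_det hQ
  have hBc : (cm B).det = ((B.det : ℚ) : ℂ) := by
    have := (algebraMap ℚ ℂ).map_det B
    simpa [cm] using this.symm
  have hBd : B.det ≠ 0 := by
    intro h0
    have h3 := congrArg Matrix.det hB
    rw [Matrix.det_mul, Matrix.det_mul, Matrix.det_transpose, Matrix.det_smul, hBc, h0, Rat.cast_zero, mul_zero] at h3
    exact mul_ne_zero (mul_ne_zero hΩ hJd) hΩ h3
  have hinj : Function.Injective (cm (n := 2 * m)) := by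
    intro A A' h
    ext i j
    have h3 := congrFun (congrFun h i) j
    rw [cm_apply, cm_apply] at h3
    exact_mod_cast h3
  have hJs : (Jm (2 * m) (QB β)).transpose = -Jm (2 * m) (QB β) := by
    apply hinj
    rw [cm_transpose, Jc_skew hQ, cm_neg]
  have hJdQ : (Jm (2 * m) (QB β)).det ≠ 0 := by
    intro h0
    apply hJd
    have h3 : (cm (Jm (2 * m) (QB β))).det = (((Jm (2 * m) (QB β)).det : ℚ) : ℂ) := by
      have := (algebraMap ℚ ℂ).map_det (Jm (2 * m) (QB β))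
      simpa [cm] using this.symm
    rw [h3, h0, Rat.cast_zero]
  have hBs : B.transpose = -B := by
    apply hinj
    have h3 : (tpi ^ (2 * m - 1)) • (cm B).transpose = (tpi ^ (2 * m - 1)) • (-cm B) := by
      rw [← Matrix.transpose_smul, ← hB, smul_neg, ← hB, Matrix.transpose_mul, Matrix.transpose_mul,
        Matrix.transpose_transpose, Jc_skew hQ]
      simp only [Matrix.mul_assoc, Matrix.neg_mul, Matrix.mul_neg]
    have h4 := congrArg (fun A => (tpi ^ (2 * m - 1))⁻¹ • A) h3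
    simp only [smul_smul, inv_mul_cancel₀ (pow_ne_zero (2 * m - 1) tpi_ne), one_smul] at h4
    rw [cm_transpose, h4, cm_neg]
  -- transcendence degree
  obtain ⟨v, hv1, hv2⟩ := td_bound hm hQ hΩ hM hB
  have htr : Algebra.trdeg ℚ (IntermediateField.adjoin ℚ (Set.range (cst ω tpi Ω))) ≤ ((m + 1 + p : ℕ) : Cardinal) := by
    refine trdeg_le (Fin.append v ω) _ ?_
    set F := IntermediateField.adjoin ℚ (Set.range v) with hF
    set F' := IntermediateField.adjoin ℚ (Set.range (Fin.append v ω)) with hF'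
    have hFF : F ≤ F' := by
      rw [hF, IntermediateField.adjoin_le_iff]
      rintro _ ⟨i, rfl⟩
      refine IntermediateField.subset_adjoin ℚ _ ⟨Fin.castAdd p i, ?_⟩
      rw [Fin.append_left]
    have hup : ∀ z : ℂ, IsAlgebraic F z → IsAlgebraic F' z := by
      rintro z ⟨r, hr, hrz⟩
      refine ⟨r.map (IntermediateField.inclusion hFF).toRingHom, ?_, ?_⟩
      · exact (Polynomial.map_ne_zero_iff (IntermediateField.inclusion hFF).injective).2 hr
      · rw [Polynomial.aeval_def, Polynomial.eval₂_map]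
        exact hrz
    rintro z ⟨i | _ | x, rfl⟩
    · have h5 : ω i ∈ F' := IntermediateField.subset_adjoin ℚ _ ⟨Fin.natAdd (m + 1) i, by rw [Fin.append_right]⟩
      exact isAlgebraic_algebraMap (A := ℂ) (⟨ω i, h5⟩ : F')
    · exact hup _ hv1
    · exact hup _ (hv2 x.1 x.2)
  refine ⟨S, hS, ?_, fun u hu huS => ?_⟩
  · have h3 : (S.card : Cardinal) ≤ ((m + 1 + p : ℕ) : Cardinal) + q + 1 :=
      hS.trans (by gcongr)
    have h4 : S.card ≤ m + 1 + p + q + 1 := by exact_mod_cast h3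
    omega
  have ht2 : ∀ j, 2 ≤ t - G * u j := by
    intro j
    have := h1 (u j) (huS j).2.1
    omega
  have hPM : ∀ j, PM β Ω (t - G * u j) = (Hf (Hc (2 * m) (QB β)) (((1 / ((t - G * u j : ℕ) : ℝ) : ℝ)) : ℂ) *
      E (cm (Am (2 * m))) (-((Real.log ((t - G * u j : ℕ) : ℝ) : ℝ) : ℂ)) * Ω).transpose := fun j => rfl
  -- the relative statement for subfields of `ℂ`
  have hrel : ∀ K : IntermediateField ℚ ℂ, FiniteDimensional ℚ K → Module.finrank ℚ K ≤ D →
      ∀ P : MvPolynomial ((Fin p ⊕ Fin q) ⊕ Co k (2 * m)) K, P.totalDegree ≤ d →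
      MvPolynomial.aeval (Sum.elim (Sum.elim ω w) (pnt tpi (fun j => ((Real.log ((t - G * u j : ℕ) : ℝ) : ℝ) : ℂ))
        fun j => PM β Ω (t - G * u j))) P = 0 →
      ∀ (μ : Fin k → ℂ) (X : Fin k → Matrix (Fin (2 * m)) (Fin (2 * m)) ℂ), Tor β B k tpi X →
      MvPolynomial.aeval (Sum.elim (Sum.elim ω w) (pnt tpi μ X)) P = 0 := by
    intro K hKf hKD P hPd hP0 μ X hX
    have hΩu : IsUnit Ω.det := isUnit_iff_ne_zero.2 hΩ
    have hΩi : Ω⁻¹ * Ω = 1 := Matrix.nonsing_inv_mul _ hΩu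
    have hΩi' : Ω * Ω⁻¹ = 1 := Matrix.mul_nonsing_inv _ hΩu
    have hN : cm (Am (2 * m)) ^ (2 * m) = 0 := Ac_nil
    have hNJ : (cm (Am (2 * m))).transpose * cm (Jm (2 * m) (QB β)) + cm (Jm (2 * m) (QB β)) * cm (Am (2 * m)) = 0 :=
      Jc_rel
    have h3 := hS2 u hu huS K hKf hKD (MvPolynomial.aeval (sbs K e) P)
      ((deg_aeval (sbs K e) (deg_sbs K e) P).trans (Nat.mul_le_mul_right _ hPd)) (by
        have h4 := val_sbs K e ω w tpi Ω (fun j => ((Real.log ((t - G * u j : ℕ) : ℝ) : ℝ) : ℂ))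
          (fun j => Hf (Hc (2 * m) (QB β)) (((1 / ((t - G * u j : ℕ) : ℝ) : ℝ)) : ℂ)) P
        rw [← hP0]
        exact h4) (fun j => (X j).transpose * Ω⁻¹ * E (cm (Am (2 * m))) (μ j)) (fun j => by
        refine isom_mul ?_ (E_isom hN hNJ (μ j))
        rw [Matrix.transpose_mul, Matrix.transpose_transpose]
        have h5 : cm (Jm (2 * m) (QB β)) = (Ω⁻¹).transpose * (tpi ^ (2 * m - 1) • cm B) * Ω⁻¹ := by
          rw [← hB]
          have h6 : (Ω⁻¹).transpose * Ω.transpose = 1 := by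
            rw [← Matrix.transpose_mul, hΩi', Matrix.transpose_one]
          calc cm (Jm (2 * m) (QB β)) = ((Ω⁻¹).transpose * Ω.transpose) * cm (Jm (2 * m) (QB β)) * (Ω * Ω⁻¹) := by
                rw [h6, hΩi', Matrix.one_mul, Matrix.mul_one]
            _ = _ := by simp only [Matrix.mul_assoc]
        have h7 := hX j
        calc (Ω⁻¹).transpose * X j * cm (Jm (2 * m) (QB β)) * ((X j).transpose * Ω⁻¹)
            = (Ω⁻¹).transpose * (X j * cm (Jm (2 * m) (QB β)) * (X j).transpose) * Ω⁻¹ := by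
              simp only [Matrix.mul_assoc]
          _ = cm (Jm (2 * m) (QB β)) := by rw [h7, ← h5]) μ
    have h4 := val_sbs K e ω w tpi Ω μ (fun j => (X j).transpose * Ω⁻¹ * E (cm (Am (2 * m))) (μ j)) P
    rw [h3] at h4
    have h5 : (fun j => ((X j).transpose * Ω⁻¹ * E (cm (Am (2 * m))) (μ j) * E (cm (Am (2 * m))) (-μ j) *
        Ω).transpose) = X := by
      funext j
      rw [Matrix.mul_assoc ((X j).transpose * Ω⁻¹), E_mul_neg hN, Matrix.mul_one, Matrix.mul_assoc, hΩi,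
        Matrix.mul_one, Matrix.transpose_transpose]
    rw [h5] at h4
    exact h4.symm
  refine ⟨fun j => ?_, ?_, ?_⟩
  · show PM β Ω (t - G * u j) * cm (Jm (2 * m) (QB β)) * (PM β Ω (t - G * u j)).transpose = _
    unfold PM
    rw [Matrix.transpose_transpose, Matrix.transpose_mul]
    have h3 := Yt_form hQ (ht2 j)
    calc Ω.transpose * (Yt (2 * m) (QB β) (t - G * u j)).transpose * cm (Jm (2 * m) (QB β)) *
          (Yt (2 * m) (QB β) (t - G * u j) * Ω)
        = Ω.transpose * ((Yt (2 * m) (QB β) (t - G * u j)).transpose * cm (Jm (2 * m) (QB β)) *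
          Yt (2 * m) (QB β) (t - G * u j)) * Ω := by simp only [Matrix.mul_assoc]
      _ = _ := by rw [h3, hB]
  · intro K _ _ φ P hKD hPd hP0 lam μ X hlam hX
    obtain ⟨K', hK'f, Q', hK'D, hQ'd, hQ'v⟩ := abs_field φ hKD P
    rw [← hQ'v] at hP0 ⊢
    refine lam_ext (even_two_mul m) (Jm (2 * m) (QB β)) B hJs hJdQ hBs hBd (2 * m - 1) K' Q' (fun μ' X' hX' => ?_)
      lam hlam μ X hX
    have h3 := hrel K' hK'f hK'D (MvPolynomial.rename Sum.inr Q')
      ((MvPolynomial.totalDegree_rename_le _ _).trans (hQ'd.trans hPd)) (by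
        rw [MvPolynomial.aeval_rename, Sum.elim_comp_inr]
        exact hP0) μ' X' hX'
    rw [MvPolynomial.aeval_rename, Sum.elim_comp_inr] at h3
    exact h3
  · intro K _ _ φ P hKD hPd hP0 μ X hX
    obtain ⟨K', hK'f, Q', hK'D, hQ'd, hQ'v⟩ := abs_field φ hKD P
    rw [← hQ'v] at hP0 ⊢
    exact hrel K' hK'f hK'D Q' (hQ'd.trans hPd) hP0 μ X hX

end Pool.Agent.Helper85K9.HW
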