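import Pool.Agent.Helper85K9.HW.KwD

/-!
# The substitution of the period matrices
-/

set_option autoImplicit false
set_option maxHeartbeats 400000

open Matrix Pool.Agent.Y119.HY Pool.Agent.Y119.HZ

namespace Pool.Agent.Helper85K9.HW

/-- the degree of a composition -/
theorem deg_aeval {σ τ R : Type} [CommRing R] (f : σ → MvPolynomial τ R) {e : ℕ}
    (hf : ∀ i, (f i).totalDegree ≤ e) (P : MvPolynomial σ R) :
    (MvPolynomial.aeval f P).totalDegree ≤ P.totalDegree * e := by
  classical
  have h : MvPolynomial.aeval f P = ∑ d ∈ P.support, MvPolynomial.C (P.coeff d) * ∏ i ∈ d.support, f i ^ d i := by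
    rw [MvPolynomial.aeval_def, MvPolynomial.eval₂_eq]
    rfl
  rw [h]
  refine MvPolynomial.totalDegree_finsetSum_le fun d hd => ?_
  refine (MvPolynomial.totalDegree_mul _ _).trans ?_
  rw [MvPolynomial.totalDegree_C, zero_add]
  refine (MvPolynomial.totalDegree_finsetProd _ _).trans ?_
  refine le_trans ?_ (Nat.mul_le_mul_right e (MvPolynomial.le_totalDegree hd))
  rw [Finsupp.sum, Finset.sum_mul]
  refine Finset.sum_le_sum fun i _ => ?_
  refine (MvPolynomial.totalDegree_pow _ _).trans ?_
  exact Nat.mul_le_mul_left _ (hf i)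

/-- coordinates: the multiplier, and for each of the `k` fibres the logarithm and the matrix -/
abbrev Co (k n : ℕ) : Type := Option (Fin k × Option (Fin n × Fin n))

variable {k n p q : ℕ}

/-- the point with the coordinates `lam`, `μ j` and the entries of the `X j` -/
def pnt (lam : ℂ) (μ : Fin k → ℂ) (X : Fin k → Matrix (Fin n) (Fin n) ℂ) : Co k n → ℂ := fun o =>
  o.elim lam fun a => a.2.elim (μ a.1) fun x => X a.1 x.1 x.2

/-- the constants: given numbers, a number and a matrix -/
def cst (ω : Fin p → ℂ) (τ : ℂ) (C : Matrix (Fin n) (Fin n) ℂ) : Fin p ⊕ Option (Fin n × Fin n) → ℂ :=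
  Sum.elim ω fun o => o.elim τ fun x => C x.1 x.2

/-- the variables -/
abbrev Va (P q k n : ℕ) : Type := (Fin P ⊕ Fin q) ⊕ Fin k × Option (Fin n × Fin n)

section
variable (K : IntermediateField ℚ ℂ) {P' : ℕ} (e : Fin P' ≃ Fin p ⊕ Option (Fin n × Fin n))

/-- the entry `(a, b)` of the transpose of the product of the matrix, of the exponential and of the constant matrix -/
noncomputable def ent (j : Fin k) (x : Fin n × Fin n) : MvPolynomial (Va P' q k n) K :=
  ∑ c, ∑ d, MvPolynomial.X (Sum.inr (j, some (x.2, c))) *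
    (∑ l ∈ Finset.range n, MvPolynomial.C (algebraMap ℚ K (qe n l c d)) * MvPolynomial.X (Sum.inr (j, none)) ^ l) *
    MvPolynomial.X (Sum.inl (Sum.inl (e.symm (Sum.inr (some (d, x.1))))))

/-- the substitution -/
noncomputable def sbs : (Fin p ⊕ Fin q) ⊕ Co k n → MvPolynomial (Va P' q k n) K :=
  Sum.elim (Sum.elim (fun i => MvPolynomial.X (Sum.inl (Sum.inl (e.symm (Sum.inl i)))))
    fun i => MvPolynomial.X (Sum.inl (Sum.inr i)))
    fun o => o.elim (MvPolynomial.X (Sum.inl (Sum.inl (e.symm (Sum.inr none))))) fun a =>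
      a.2.elim (MvPolynomial.X (Sum.inr (a.1, none))) fun x => ent K e a.1 x

theorem deg_ent (j : Fin k) (x : Fin n × Fin n) : (ent (q := q) K e j x).totalDegree ≤ n + 2 := by
  unfold ent
  refine (MvPolynomial.totalDegree_finsetSum _ _).trans (Finset.sup_le fun c _ => ?_)
  refine (MvPolynomial.totalDegree_finsetSum _ _).trans (Finset.sup_le fun d _ => ?_)
  have h1 : (∑ l ∈ Finset.range n, MvPolynomial.C (algebraMap ℚ K (qe n l c d)) *
      (MvPolynomial.X (Sum.inr (j, none)) : MvPolynomial (Va P' q k n) K) ^ l).totalDegree ≤ n := by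
    refine (MvPolynomial.totalDegree_finsetSum _ _).trans (Finset.sup_le fun l hl => ?_)
    refine (MvPolynomial.totalDegree_mul _ _).trans ?_
    rw [MvPolynomial.totalDegree_C, zero_add, MvPolynomial.totalDegree_X_pow]
    exact (Finset.mem_range.1 hl).le
  refine (MvPolynomial.totalDegree_mul _ _).trans ?_
  rw [MvPolynomial.totalDegree_X]
  refine (Nat.add_le_add_right (MvPolynomial.totalDegree_mul _ _) 1).trans ?_
  rw [MvPolynomial.totalDegree_X]
  omega

theorem deg_sbs (v : (Fin p ⊕ Fin q) ⊕ Co k n) : (sbs K e v).totalDegree ≤ n + 2 := by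
  rcases v with (i | i) | _ | ⟨j, _ | x⟩
  · show (MvPolynomial.X _ : MvPolynomial (Va P' q k n) K).totalDegree ≤ _
    rw [MvPolynomial.totalDegree_X]
    omega
  · show (MvPolynomial.X _ : MvPolynomial (Va P' q k n) K).totalDegree ≤ _
    rw [MvPolynomial.totalDegree_X]
    omega
  · show (MvPolynomial.X _ : MvPolynomial (Va P' q k n) K).totalDegree ≤ _
    rw [MvPolynomial.totalDegree_X]
    omega
  · show (MvPolynomial.X _ : MvPolynomial (Va P' q k n) K).totalDegree ≤ _
    rw [MvPolynomial.totalDegree_X]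
    omega
  · exact deg_ent K e j x

/-- values of the substitution -/
theorem val_sbs (ω : Fin p → ℂ) (w : Fin q → ℂ) (τ : ℂ) (C : Matrix (Fin n) (Fin n) ℂ) (μ : Fin k → ℂ)
    (g : Fin k → Matrix (Fin n) (Fin n) ℂ) (Q : MvPolynomial ((Fin p ⊕ Fin q) ⊕ Co k n) K) :
    MvPolynomial.aeval (Sum.elim (Sum.elim (fun i => cst ω τ C (e i)) w) fun a : Fin k × Option (Fin n × Fin n) =>
      a.2.elim (μ a.1) fun x => g a.1 x.1 x.2) (MvPolynomial.aeval (sbs K e) Q) =
    MvPolynomial.aeval (Sum.elim (Sum.elim ω w) (pnt τ μ fun j => (g j * E (cm (Am n)) (-μ j) * C).transpose)) Q := by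
  have h0 := MvPolynomial.algHom_ext (R := K)
    (f := (MvPolynomial.aeval (R := K) (Sum.elim (Sum.elim (fun i => cst ω τ C (e i)) w)
      fun a : Fin k × Option (Fin n × Fin n) => a.2.elim (μ a.1) fun x => g a.1 x.1 x.2)).comp
      (MvPolynomial.aeval (sbs K e)))
    (g := MvPolynomial.aeval (R := K)
      (Sum.elim (Sum.elim ω w) (pnt τ μ fun j => (g j * E (cm (Am n)) (-μ j) * C).transpose))) (fun v => by
    rw [AlgHom.comp_apply, MvPolynomial.aeval_X, MvPolynomial.aeval_X]
    rcases v with (i | i) | _ | ⟨j, _ | x⟩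
    · show MvPolynomial.aeval _ (MvPolynomial.X _) = _
      rw [MvPolynomial.aeval_X]
      show cst ω τ C (e (e.symm (Sum.inl i))) = _
      rw [Equiv.apply_symm_apply]
      rfl
    · show MvPolynomial.aeval _ (MvPolynomial.X _) = _
      rw [MvPolynomial.aeval_X]
      rfl
    · show MvPolynomial.aeval _ (MvPolynomial.X _) = _
      rw [MvPolynomial.aeval_X]
      show cst ω τ C (e (e.symm (Sum.inr none))) = _
      rw [Equiv.apply_symm_apply]
      rfl
    · show MvPolynomial.aeval _ (MvPolynomial.X _) = _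
      rw [MvPolynomial.aeval_X]
      rfl
    · show MvPolynomial.aeval _ (ent K e j x) = (g j * E (cm (Am n)) (-μ j) * C) x.2 x.1
      unfold ent
      rw [Matrix.mul_apply]
      simp only [map_sum, map_mul, map_pow, MvPolynomial.aeval_X, MvPolynomial.aeval_C, Sum.elim_inr, Sum.elim_inl,
        Equiv.apply_symm_apply, Option.elim_none, Option.elim_some, Matrix.mul_apply, Finset.sum_mul, cst]
      refine Finset.sum_comm.trans (Finset.sum_congr rfl fun d _ => Finset.sum_congr rfl fun c _ => ?_)
      rw [E_qe, Finset.mul_sum, Finset.sum_mul, Finset.mul_sum, Finset.sum_mul]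
      refine Finset.sum_congr rfl fun l _ => ?_
      have hr : algebraMap K ℂ (algebraMap ℚ K (qe n l c d)) = ((qe n l c d : ℚ) : ℂ) := by
        rw [← IsScalarTower.algebraMap_apply ℚ K ℂ]
        rfl
      rw [hr])
  exact DFunLike.congr_fun h0 Q

end

end Pool.Agent.Helper85K9.HW
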