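import Pool.Agent.Helper85K9.HW.Lam
import Pool.Agent.Y118.CM.Cl
import Pool.Agent.Y113.MT.Win2
import Pool.Agent.Y730.MT.Nf
import Pool.Agent.Y730.MT.Td
import Pool.Agent.H135R2.VS.Der

/-!
# The transcendence degree of the field of limit periods
-/

set_option autoImplicit false
set_option maxHeartbeats 400000

open Matrix Pool.Agent.Y119.HY Pool.Agent.Y119.HZ Pool.Agent.Y118.CM Pool.Agent.Y113.MT

namespace Pool.Agent.Helper85K9.HW

/-- numbers which are killed by all derivations over a field are algebraic -/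
theorem alg_der (K : IntermediateField ℚ ℂ) {z : ℂ} (h : ∀ D : Derivation K ℂ ℂ, D z = 0) : IsAlgebraic K z := by
  by_contra hcon
  have hind : AlgebraicIndependent K (fun _ : Unit => z) := (algebraicIndependent_unique_type_iff).2 hcon
  obtain ⟨D, hD⟩ := Pool.Agent.H135R2.VS.exists_der hind (fun _ => (1 : ℂ))
  have h1 := hD ()
  rw [h] at h1
  exact zero_ne_one h1

open scoped IntermediateField.algebraAdjoinAdjoin in
theorem alg_adj {r : ℕ} (w : Fin r → ℂ) {x : ℂ} (h : IsAlgebraic (IntermediateField.adjoin ℚ (Set.range w)) x) :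
    IsAlgebraic (Algebra.adjoin ℚ (Set.range w)) x :=
  (IsFractionRing.isAlgebraic_iff (Algebra.adjoin ℚ (Set.range w)) (IntermediateField.adjoin ℚ (Set.range w)) ℂ).2 h

/-- the transcendence degree of a field generated by algebraic elements over a field with few generators -/
theorem trdeg_le {r : ℕ} (w : Fin r → ℂ) (s : Set ℂ)
    (h : ∀ z ∈ s, IsAlgebraic (IntermediateField.adjoin ℚ (Set.range w)) z) :
    Algebra.trdeg ℚ (IntermediateField.adjoin ℚ s) ≤ r := by
  classical
  set F := IntermediateField.adjoin ℚ (Set.range w) with hF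
  set L : IntermediateField F ℂ := algebraicClosure F ℂ with hL
  set L' : IntermediateField ℚ ℂ := L.restrictScalars ℚ with hL'
  have hle : IntermediateField.adjoin ℚ s ≤ L' := by
    rw [IntermediateField.adjoin_le_iff]
    intro z hz
    exact (mem_algebraicClosure_iff).2 (h z hz)
  set M := AlgebraicIndependent.matroid ℚ ℂ with hM
  have hcl : ∀ x : IntermediateField.adjoin ℚ s, (x : ℂ) ∈ M.closure (Set.range w) := by
    intro x
    rw [hM, AlgebraicIndependent.matroid_closure_eq]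
    have h1 : IsAlgebraic F (x : ℂ) := (mem_algebraicClosure_iff).1 (hle x.2)
    show IsAlgebraic (Algebra.adjoin ℚ (Set.range w)) (x : ℂ)
    exact alg_adj w h1
  unfold Algebra.trdeg
  refine ciSup_le' ?_
  rintro ⟨I, hI⟩
  have hJ : M.Indep ((fun x : IntermediateField.adjoin ℚ s => (x : ℂ)) '' I) := by
    rw [hM, AlgebraicIndependent.matroid_indep_iff]
    have h1 : AlgebraicIndependent ℚ (fun x : I => ((x : IntermediateField.adjoin ℚ s) : ℂ)) :=
      hI.map' (f := (IntermediateField.adjoin ℚ s).val) (IntermediateField.adjoin ℚ s).val.injective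
    have h2 := h1.coe_range
    have h3 : Set.range (fun x : I => ((x : IntermediateField.adjoin ℚ s) : ℂ)) =
        (fun x : IntermediateField.adjoin ℚ s => (x : ℂ)) '' I := by
      ext z
      constructor
      · rintro ⟨x, rfl⟩
        exact ⟨x, x.2, rfl⟩
      · rintro ⟨x, hx, rfl⟩
        exact ⟨⟨x, hx⟩, rfl⟩
    rw [h3] at h2
    exact h2
  have h4 : ((fun x : IntermediateField.adjoin ℚ s => (x : ℂ)) '' I).encard ≤ (r : ℕ∞) := by
    rw [← hJ.eRk_eq_encard]
    have h5 : (fun x : IntermediateField.adjoin ℚ s => (x : ℂ)) '' I ⊆ M.closure (Set.range w) := by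
      rintro _ ⟨x, -, rfl⟩
      exact hcl x
    refine (M.eRk_mono h5).trans ?_
    rw [Matroid.eRk_closure_eq]
    refine (M.eRk_le_encard _).trans ?_
    rw [← Set.image_univ]
    refine (Set.encard_image_le _ _).trans ?_
    rw [Set.encard_univ, ENat.card_eq_coe_fintype_card, Fintype.card_fin]
  rw [Function.Injective.encard_image Subtype.val_injective] at h4
  have h6 : Cardinal.toENat (Cardinal.mk I) ≤ (r : ℕ∞) := h4
  exact (Cardinal.toENat_le_natCast).1 h6

theorem cm_eq_cq {n : ℕ} (A : Matrix (Fin n) (Fin n) ℚ) : cm A = cq A := rfl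

theorem cmAm_eq (n : ℕ) : cm (Am n) = NN ℂ n := by
  ext i j
  rw [cm_apply]
  unfold Am NN
  rw [Matrix.of_apply, Matrix.of_apply]
  split_ifs <;> simp

theorem cmJ0_eq (n : ℕ) : cm (J0 n) = SS ℂ n := by
  ext i j
  rw [cm_apply]
  unfold J0 SS
  rw [Matrix.of_apply, Matrix.of_apply]
  split_ifs <;> simp

variable {m : ℕ} {β : Fin m → ℚ}

/-- **the limit periods are algebraic over a field with `m + 1` generators** -/
theorem td_bound (hm : 1 ≤ m) (hQ : QD (2 * m) (QB β)) {Ω : Matrix (Fin (2 * m)) (Fin (2 * m)) ℂ}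
    {M B : Matrix (Fin (2 * m)) (Fin (2 * m)) ℚ} (hΩ : Ω.det ≠ 0) (hM : Ω * cm M = tpi • (cm (Am (2 * m)) * Ω))
    (hB : Ω.transpose * cm (Jm (2 * m) (QB β)) * Ω = tpi ^ (2 * m - 1) • cm B) :
    ∃ w : Fin (m + 1) → ℂ, IsAlgebraic (IntermediateField.adjoin ℚ (Set.range w)) tpi ∧
      ∀ i j, IsAlgebraic (IntermediateField.adjoin ℚ (Set.range w)) (Ω i j) := by
  classical
  set κ : ℂ := (-1) ^ m * tpi ^ (2 * m - 1) with hκ
  have hκ0 : κ ≠ 0 := mul_ne_zero (pow_ne_zero _ (by norm_num)) (pow_ne_zero _ tpi_ne)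
  set C : Matrix (Fin (2 * m)) (Fin (2 * m)) ℂ := cm (DN β) * Ω with hC
  have hDNu := DN_unit hQ
  have hDNi : cm (DN β)⁻¹ * cm (DN β) = 1 := by rw [← cm_mul, Matrix.nonsing_inv_mul _ hDNu, cm_one]
  have hΩC : Ω = cm (DN β)⁻¹ * C := by rw [hC, ← Matrix.mul_assoc, hDNi, Matrix.one_mul]
  have hcomm : cm (DN β) * cm (Am (2 * m)) = cm (Am (2 * m)) * cm (DN β) := by
    rw [← cm_mul, ← cm_mul]
    congr 1
    have h2 : Polynomial.aeval (Am (2 * m)) (Dp β * Polynomial.X) =
        Polynomial.aeval (Am (2 * m)) (Polynomial.X * Dp β) := by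
      rw [mul_comm (Dp β)]
    rwa [map_mul, map_mul, Polynomial.aeval_X] at h2
  have hCdet : C.det ≠ 0 := by
    rw [hC, Matrix.det_mul]
    exact mul_ne_zero (DN_det hQ) hΩ
  have hCM : C * cq M = tpi • (NN ℂ (2 * m) * C) := by
    rw [← cm_eq_cq, ← cmAm_eq, hC, Matrix.mul_assoc, hM, Matrix.mul_smul, ← Matrix.mul_assoc, hcomm,
      Matrix.mul_assoc]
  have hBd : B.det ≠ 0 := by
    intro h0
    have h1 := congrArg Matrix.det hB
    rw [Matrix.det_mul, Matrix.det_mul, Matrix.det_transpose, Matrix.det_smul] at h1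
    have h2 : (cm B).det = 0 := by
      have h3 : (cm B).det = ((B.det : ℚ) : ℂ) := by
        have := (algebraMap ℚ ℂ).map_det B
        simpa [cm] using this.symm
      rw [h3, h0, Rat.cast_zero]
    rw [h2, mul_zero] at h1
    exact mul_ne_zero (mul_ne_zero hΩ (Jc_det hQ)) hΩ h1
  have hBu : IsUnit B.det := isUnit_iff_ne_zero.2 hBd
  have hCJC : C.transpose * cm (J0 (2 * m)) * C = κ • cm B := by
    rw [hC, Matrix.transpose_mul]
    calc Ω.transpose * (cm (DN β)).transpose * cm (J0 (2 * m)) * (cm (DN β) * Ω)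
        = Ω.transpose * ((cm (DN β)).transpose * cm (J0 (2 * m)) * cm (DN β)) * Ω := by simp only [Matrix.mul_assoc]
      _ = κ • cm B := by rw [form_relc, Matrix.mul_smul, Matrix.smul_mul, hB, smul_smul, hκ]
  have hCBC : C * cq B⁻¹ * C.transpose = (-κ) • SS ℂ (2 * m) := by
    rw [← cm_eq_cq, ← cmJ0_eq]
    have h1 : (C.transpose * cm (J0 (2 * m))) * (κ⁻¹ • (C * cm B⁻¹)) = 1 := by
      rw [Matrix.mul_smul, ← Matrix.mul_assoc, hCJC, Matrix.smul_mul, smul_smul, inv_mul_cancel₀ hκ0, one_smul,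
        ← cm_mul, Matrix.mul_nonsing_inv _ hBu, cm_one]
    have h2 : (κ⁻¹ • (C * cm B⁻¹)) * (C.transpose * cm (J0 (2 * m))) = 1 := mul_eq_one_comm.1 h1
    have h3 : C * cm B⁻¹ * C.transpose * cm (J0 (2 * m)) = κ • (1 : Matrix (Fin (2 * m)) (Fin (2 * m)) ℂ) := by
      rw [← h2, Matrix.smul_mul, smul_smul, mul_inv_cancel₀ hκ0, one_smul]
      simp only [Matrix.mul_assoc]
    have h4 : cm (J0 (2 * m)) * cm (J0 (2 * m)) = -1 := by
      rw [← cm_mul, J0_sq (even_two_mul m), ← cm_one, ← cm_neg]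
    have h5 := congrArg (fun X => X * cm (J0 (2 * m))) h3
    simp only [Matrix.smul_mul, Matrix.one_mul] at h5
    rw [Matrix.mul_assoc (C * cm B⁻¹ * C.transpose), h4, Matrix.mul_neg, Matrix.mul_one] at h5
    rw [neg_smul, ← h5, neg_neg]
  obtain ⟨l, w, hl, R, T, hCT, hTN, hT1, hT2, hq⟩ := nrm_exists Pool.Agent.Y730.MT.nf hm hCdet tpi_ne hCM
  refine ⟨w, ?_⟩
  set K := IntermediateField.adjoin ℚ (Set.range w) with hK
  -- all derivations over `K` vanish
  have hder : ∀ D : Derivation K ℂ ℂ, D tpi = 0 ∧ Ω.map (D.restrictScalars ℤ) = 0 := by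
    intro D0
    set D : Derivation ℤ ℂ ℂ := D0.restrictScalars ℤ with hD
    have hDK : ∀ z : K, D (z : ℂ) = 0 := fun z => D0.map_algebraMap z
    have hDw : ∀ i, D (w i) = 0 := fun i => hDK ⟨w i, IntermediateField.subset_adjoin ℚ _ ⟨i, rfl⟩⟩
    have hDQ : ∀ c : ℚ, D ((c : ℚ) : ℂ) = 0 := fun c => hDK (algebraMap ℚ K c)
    have hDcq : ∀ A : Matrix (Fin (2 * m)) (Fin (2 * m)) ℚ, (cq A).map D = 0 := fun A =>
      dmap_zero D fun i j => by rw [cq_apply]; exact hDQ _
    have hDq : D tpi⁻¹ = 0 := by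
      rw [hq]
      exact hDw _
    have hDt : D tpi = 0 := by
      have h1 : D (tpi * tpi⁻¹) = 0 := by rw [mul_inv_cancel₀ tpi_ne, Derivation.map_one_eq_zero]
      rw [D.leibniz, hDq, smul_zero, zero_add, smul_eq_mul] at h1
      exact (mul_eq_zero.1 h1).resolve_left (inv_ne_zero tpi_ne)
    have hDDg : (Dg (2 * m) tpi⁻¹).map D = 0 := by
      refine dmap_zero D fun i j => ?_
      unfold Dg
      by_cases hij : i = j
      · subst hij
        rw [Matrix.diagonal_apply_eq, D.leibniz_pow, hDq, smul_zero, smul_zero]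
      · rw [Matrix.diagonal_apply_ne _ hij, map_zero]
    have hform : T * (Dg (2 * m) tpi⁻¹ * cq (R * B⁻¹ * R.transpose) * Dg (2 * m) tpi⁻¹) * T.transpose =
        (l * l * -κ) • SS ℂ (2 * m) := by
      have h1 : (l • C) * cq B⁻¹ * (l • C).transpose = (l * l * -κ) • SS ℂ (2 * m) := by
        rw [Matrix.transpose_smul, Matrix.smul_mul, Matrix.smul_mul, Matrix.mul_smul, hCBC, smul_smul, smul_smul]
      rw [← h1, hCT, Matrix.transpose_mul, Matrix.transpose_mul]
      have e : (Dg (2 * m) tpi⁻¹).transpose = Dg (2 * m) tpi⁻¹ := by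
        unfold Dg
        exact Matrix.diagonal_transpose _
      rw [e, cq_mul, cq_mul, cq_tr]
      simp only [Matrix.mul_assoc]
    have hTD : T.map D = 0 := by
      refine Pool.Agent.Y730.MT.td ℂ m D T (Dg (2 * m) tpi⁻¹ * cq (R * B⁻¹ * R.transpose) * Dg (2 * m) tpi⁻¹)
        (l * l * -κ) hTN hT1 (mul_ne_zero (mul_ne_zero hl hl) (neg_ne_zero.2 hκ0)) hform ?_ ?_
      · rw [dmap_mul, dmap_mul, hDDg, hDcq]
        simp
      · intro i j hi hj
        rw [hT2 i j hi hj]
        exact hDw _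
    have hlC : (l • C).map D = 0 := by
      rw [hCT, dmap_mul, dmap_mul, hDDg, hTD, hDcq]
      simp
    have hlD : D l = 0 := by
      have h1 : ((l * l * -κ) • SS ℂ (2 * m)).map D = 0 := by
        rw [← hform, dmap_mul, dmap_mul, dmap_mul, dmap_mul, hTD, hDDg, hDcq]
        have h2 : T.transpose.map D = 0 := by
          rw [Matrix.transpose_map, hTD, Matrix.transpose_zero]
        rw [h2]
        simp
      have h3 := congrFun (congrFun h1 ⟨0, by omega⟩) ⟨2 * m - 1, by omega⟩
      rw [Matrix.map_apply, Matrix.smul_apply, smul_eq_mul, Matrix.zero_apply] at h3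
      have h4 : SS ℂ (2 * m) ⟨0, by omega⟩ ⟨2 * m - 1, by omega⟩ = 1 := by
        unfold SS
        rw [Matrix.of_apply, if_pos (by simp only; omega)]
        simp
      have h5 : D (-κ) = 0 := by
        rw [map_neg, hκ, D.leibniz, D.leibniz_pow, hDt, smul_zero, smul_zero, smul_zero, zero_add]
        have h6 : D ((-1 : ℂ) ^ m) = 0 := by
          have := hDQ ((-1) ^ m)
          push_cast at this
          exact this
        rw [h6, smul_zero, neg_zero]
      rw [h4, mul_one, D.leibniz, h5, smul_zero, zero_add, D.leibniz, smul_eq_mul, smul_eq_mul] at h3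
      have h7 : -κ * (l * D l + l * D l) = 0 := h3
      have h8 : l * D l + l * D l = 0 := (mul_eq_zero.1 h7).resolve_left (neg_ne_zero.2 hκ0)
      have h9 : l * D l = 0 := by linear_combination h8 / 2
      exact (mul_eq_zero.1 h9).resolve_left hl
    have hCD : C.map D = 0 := by
      refine dmap_zero D fun i j => ?_
      have h1 := congrFun (congrFun hlC i) j
      rw [Matrix.map_apply, Matrix.smul_apply, smul_eq_mul, D.leibniz, hlD, smul_zero, add_zero, smul_eq_mul,
        Matrix.zero_apply] at h1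
      exact (mul_eq_zero.1 h1).resolve_left hl
    refine ⟨hDt, ?_⟩
    rw [hΩC, dmap_mul, hCD, cm_eq_cq, hDcq]
    simp
  exact ⟨alg_der K fun D => (hder D).1, fun i j => alg_der K fun D => congrFun (congrFun (hder D).2 i) j⟩

end Pool.Agent.Helper85K9.HW
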